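import Mathlib
import Pool.Agent.Y920.EP.Base

set_option autoImplicit false

/-! Transitive vanishing of symbols, `p` odd: blocks in an abelian group, and bad elements. -/

namespace Pool.Agent.R675.TP

open Pool.Agent.Y920.EP

section grp

variable {A : Type} [CommGroup A] {Nn : A → Subgroup A}

/-- the subgroups `N(a)`, `a ≠ 1`, are equal or meet in `1` -/
structure Blk (Nn : A → Subgroup A) : Prop where
  symm : ∀ a b : A, b ∈ Nn a → a ∈ Nn b
  self : ∀ a : A, a ∈ Nn a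
  tr : ∀ a b : A, b ≠ 1 → b ∈ Nn a → Nn b ≤ Nn a

lemma Blk.meet (h : Blk Nn) {a b g : A} (ha : a ≠ 1) (hb : b ≠ 1) (hg : g ≠ 1)
    (h1 : g ∈ Nn a) (h2 : g ∈ Nn b) : Nn a = Nn b := by
  have e1 : Nn a = Nn g := le_antisymm (h.tr g a ha (h.symm _ _ h1)) (h.tr a g hg h1)
  have e2 : Nn b = Nn g := le_antisymm (h.tr g b hb (h.symm _ _ h2)) (h.tr b g hg h2)
  rw [e1, e2]

lemma Blk.eq_of (h : Blk Nn) {a b : A} (ha : a ≠ 1) (hb : b ≠ 1) (h1 : b ∈ Nn a) :
    Nn b = Nn a := h.meet hb ha hb (h.self b) h1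

lemma Blk.inv (h : Blk Nn) (a : A) : Nn a⁻¹ = Nn a := by
  by_cases ha : a = 1
  · rw [ha, inv_one]
  · exact h.eq_of ha (by simpa using ha) (inv_mem (h.self a))

lemma Blk.ne_one {c x : A} (hx : x ∉ Nn c) : x ≠ 1 := fun e => hx (e ▸ one_mem _)

lemma Blk.div_ne (h : Blk Nn) {c x d : A} (hx : x ∉ Nn c) (hd : d ∈ Nn c) : x / d ≠ 1 :=
  fun e => hx (by rw [div_eq_one.1 e]; exact hd)

/-- separation of blocks -/
lemma Blk.sep (h : Blk Nn) {c x d g : A} (hc : c ≠ 1) (hx : x ∉ Nn c) (hd : d ∈ Nn c)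
    (h1 : g ∈ Nn (x / d)) (h2 : g ∈ Nn c) : g = 1 := by
  by_contra hg
  have e := h.meet (h.div_ne hx hd) hc hg h1 h2
  have h3 : x / d ∈ Nn c := e ▸ h.self (x / d)
  exact hx (by have := mul_mem h3 hd; rwa [div_mul_cancel] at this)

lemma Blk.inv_div (h : Blk Nn) (a b : A) : Nn (a / b) = Nn (b / a) := by
  rw [← h.inv (a / b), _root_.inv_div]

lemma Blk.symm_not (h : Blk Nn) {c x : A} (hx : x ∉ Nn c) : c ∉ Nn x := fun h1 => hx (h.symm _ _ h1)

/-- the triangle `1, c, f₀` with the points `d, f, g` on its sides and the common point `W` -/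
lemma Blk.tri (h : Blk Nn) {c d f₀ f g W : A} (hc : c ≠ 1) (hd : d ∈ Nn c) (hd1 : d ≠ 1)
    (hdc : d ≠ c) (hf₀ : f₀ ∉ Nn c) (hf : f ∈ Nn f₀) (hg : g / c ∈ Nn (f₀ / c))
    (R1 : W / d ∈ Nn (f₀ / d)) (R2 : W / f ∈ Nn (c / f)) (R3 : W ∈ Nn g) :
    ((f = 1 → W = d ∧ g = c) ∧ (g = c → f = 1)) ∧ ((f = f₀ → g = f₀) ∧ (g = f₀ → f = f₀)) := by
  have hf₀1 : f₀ ≠ 1 := Blk.ne_one hf₀
  have hcf : c ∉ Nn f₀ := h.symm_not hf₀
  have hg1 : g ≠ 1 := by
    rintro rfl
    rw [one_div] at hg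
    have := h.sep hc hf₀ (h.self c) hg (inv_mem (h.self c))
    exact hc (by simpa using this)
  have hW : W ∈ Nn c → W = d := fun hWc =>
    div_eq_one.1 (h.sep hc hf₀ hd R1 (div_mem hWc hd))
  have hW2 : W / f₀ ∈ Nn (f₀ / d) := by
    have := div_mem R1 (h.self (f₀ / d))
    rwa [div_div_div_cancel_right] at this
  refine ⟨⟨?_, ?_⟩, ?_, ?_⟩
  · rintro rfl
    rw [div_one, div_one] at R2
    have e := hW R2
    subst e
    refine ⟨rfl, ?_⟩
    have e2 : Nn g = Nn c := h.meet hg1 hc hd1 R3 hd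
    have e3 : g ∈ Nn c := e2 ▸ h.self g
    exact div_eq_one.1 (h.sep hc hf₀ (h.self c) hg (div_mem e3 (h.self c)))
  · rintro rfl
    have e := hW R3
    subst e
    by_contra hf1
    have hfc : f ∉ Nn g := by
      intro h1
      have := h.meet hf₀1 hc hf1 hf h1
      exact hf₀ (this ▸ h.self f₀)
    have h1 : W / g ∈ Nn (f / g) := by
      rw [h.inv_div]
      have := div_mem R2 (h.self (g / f))
      rwa [div_div_div_cancel_right] at this
    exact hdc (div_eq_one.1 (h.sep hc hfc (h.self g) h1 (div_mem R3 (h.self g))))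
  · rintro rfl
    have e : W = f := by
      by_contra hne
      have h1 : W / f ≠ 1 := fun e => hne (div_eq_one.1 e)
      have h2 : c / f ≠ 1 := fun e => hcf (by rw [div_eq_one.1 e]; exact h.self f)
      have e2 := h.meet h2 (h.div_ne hf₀ hd) h1 R2 hW2
      have h3 : c / f ∈ Nn (f / d) := e2 ▸ h.self (c / f)
      have h4 : c / d ∈ Nn (f / d) := by
        have := mul_mem h3 (h.self (f / d))
        rwa [div_mul_div_cancel] at this
      have h5 := h.sep hc hf₀ hd h4 (div_mem (h.self c) hd)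
      exact hdc (div_eq_one.1 h5).symm
    subst e
    have e2 : Nn g = Nn W := h.meet hg1 hf₀1 hf₀1 R3 (h.self W)
    have e3 : g ∈ Nn W := e2 ▸ h.self g
    have h4 : g / W ∈ Nn (W / c) := by
      have := div_mem hg (h.self (W / c))
      rwa [div_div_div_cancel_right] at this
    by_contra hne
    have h5 : g / W ≠ 1 := fun e => hne (div_eq_one.1 e)
    have e4 := h.meet hf₀1 (h.div_ne hf₀ (h.self c)) h5 (div_mem e3 (h.self W)) h4
    have h6 : W / c ∈ Nn W := e4 ▸ h.self (W / c)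
    have h7 := div_mem (h.self W) h6
    rw [div_div_cancel] at h7
    exact hcf h7
  · rintro rfl
    have e : W = g := by
      by_contra hne
      have h1 : W / g ≠ 1 := fun e => hne (div_eq_one.1 e)
      have e2 := h.meet hf₀1 (h.div_ne hf₀ hd) h1 (div_mem R3 (h.self g)) hW2
      have h3 : g / d ∈ Nn g := e2 ▸ h.self (g / d)
      have h4 := div_mem (h.self g) h3
      rw [div_div_cancel] at h4
      have h5 := h.symm _ _ h4
      exact hf₀ (h.tr c d hd1 hd h5)
    subst e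
    by_contra hne
    have h1 : W / f ≠ 1 := fun e => hne (div_eq_one.1 e).symm
    have h2 : c / f ≠ 1 := fun e => hcf (by rw [div_eq_one.1 e]; exact hf)
    have e2 := h.meet hf₀1 h2 h1 (div_mem (h.self W) hf) R2
    have h3 : c / f ∈ Nn W := e2 ▸ h.self (c / f)
    have h4 := mul_mem h3 hf
    rw [div_mul_cancel] at h4
    exact hcf h4

end grp

end Pool.Agent.R675.TP
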