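import Mathlib
import Pool.Agent.R675.TP.Bad
import Pool.Agent.Y98.EP.PCD
import Pool.Agent.Y447.EP.WB
import Pool.Agent.Y232.EP.Coarse

set_option autoImplicit false

/-! Transitive vanishing of symbols: all bad elements lie in one block. -/

namespace Pool.Agent.R675.TP

open Pool.Agent.Y920.EP
open Pool.Agent.Y920.ETC (PCD Compat)

section fld

variable {F : Type} [Field F] {A : Type} [CommGroup A] {φ : Fˣ →* A} {Nn : A → Subgroup A}

/-- units of the kernel -/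
def Tn (h : TSys φ Nn) (hT : Two φ Nn) : Subgroup Fˣ := φ.ker ⊓ Un h hT

lemma mem_Tn {h : TSys φ Nn} {hT : Two φ Nn} {t : Fˣ} :
    t ∈ Tn h hT ↔ φ t = 1 ∧ t ∈ Un h hT := by
  rw [Tn, Subgroup.mem_inf, MonoidHom.mem_ker]

lemma rp (h : TSys φ Nn) (hT : Two φ Nn) {y₀ : Fˣ} (hy₀ : Bd φ y₀) :
    RP (Tn h hT) (Un h hT) := by
  have hneg := neg_one_mem h hT hy₀
  refine ⟨inf_le_right, hneg, ?_⟩
  intro x hx
  have hr : ∀ s : Fˣ, (s : F) = 1 + (x⁻¹ : Fˣ) → ((x * s : Fˣ) : F) = 1 + x := by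
    intro s hs
    rw [mul_comm]
    exact one_add_inv' hs
  have hxi : x⁻¹ ∉ Un h hT := fun h1 => hx (inv_mem_iff.1 h1)
  have hne : ∀ x : Fˣ, x ∉ Un h hT → (1 : F) + x ≠ 0 := by
    intro x hx e
    apply hx
    have : x = -1 := by
      apply Units.ext
      rw [Units.val_neg, Units.val_one]
      linear_combination e
    rw [this]
    exact hneg
  by_cases h1 : φ x = 1
  · rcases of_notMem h1 hx with h2 | h2
    · left
      obtain ⟨v, hv⟩ : ∃ v : Fˣ, (v : F) = 1 + x := ⟨Units.mk0 _ (hne x hx), Units.val_mk0 _⟩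
      exact ⟨v, mem_Tn.2 (one_add_mem' h hT h1 hy₀ h2 hv), hv⟩
    · right
      have h3 : ∀ y, Bd φ y → Sml φ (x⁻¹ * y) := by
        intro y hy
        have := h2 _ hy.inv
        rwa [lrg_iff, mul_inv, inv_inv] at this
      obtain ⟨v, hv⟩ : ∃ v : Fˣ, (v : F) = 1 + (x⁻¹ : Fˣ) :=
        ⟨Units.mk0 _ (hne _ hxi), Units.val_mk0 _⟩
      exact ⟨v, mem_Tn.2 (one_add_mem' h hT (by rw [map_inv, h1, inv_one]) hy₀ h3 hv), hr v hv⟩
  · rcases h.cases h1 with h2 | h2 | h2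
    · obtain ⟨s, hs, -⟩ := id h2
      left
      exact ⟨s, mem_Tn.2 (one_add_mem h hT h1 h2 hs), hs⟩
    · rw [lrg_iff] at h2
      obtain ⟨s, hs, -⟩ := id h2
      right
      exact ⟨s, mem_Tn.2 (one_add_mem h hT (by rw [map_inv]; simpa using h1) h2 hs), hr s hs⟩
    · exact absurd (mem_Un_of_bd h hT h2) hx

/-- squares -/
lemma sq_mem (h : TSys φ Nn) (hT : Two φ Nn) {y₀ : Fˣ} (hy₀ : Bd φ y₀)
    (hodd : ∀ a : A, a * a = 1 → a = 1) (x : Fˣ) (hx : x * x ∈ Un h hT) : x ∈ Un h hT := by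
  by_contra hc
  by_cases h1 : φ x = 1
  · have key : ∀ x : Fˣ, φ x = 1 → (∀ y, Bd φ y → Sml φ (x * y)) →
        (∀ y, Bd φ y → Bd φ (x * x * y)) → False := by
      intro x hx1 hs hb
      have h2 := hs _ (hb y₀ hy₀).inv
      rw [← lrg_inv_iff, mul_inv, inv_inv] at h2
      have e : x⁻¹ * (x * x * y₀) = x * y₀ := by
        rw [mul_assoc, inv_mul_cancel_left]
      rw [e] at h2
      exact not_both (by rw [map_mul, hx1, one_mul]; exact hy₀.1) (hs _ hy₀) h2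
    have h2 : ∀ y, Bd φ y → Bd φ (x * x * y) := fun y hy =>
      bd_mul_of_mem hx hy (by rw [map_mul, map_mul, h1, one_mul, one_mul]; exact hy.1)
    rcases of_notMem h1 hc with h3 | h3
    · exact key x h1 h3 h2
    · refine key x⁻¹ (by rw [map_inv, h1, inv_one]) (fun y hy => ?_) (fun y hy => ?_)
      · have := h3 _ hy.inv
        rwa [lrg_iff, mul_inv, inv_inv] at this
      · have := (h2 _ hy.inv).inv
        rwa [mul_inv, mul_inv, inv_inv] at this
  · have key : ∀ x : Fˣ, φ x ≠ 1 → Bd φ (x * x) → Sml φ x → False := by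
      intro x hx1 hb hs
      obtain ⟨y, hy, hyx⟩ := hT _ hx1
      have hxy : φ x ∉ Nn (φ y) := h.blk.symm_not hyx
      have h2 : φ (x * y) ∉ Nn (φ y) := by
        rw [map_mul]; exact notMem_mul' hxy (h.blk.self _)
      have h3 : φ (x⁻¹ * y) ∉ Nn (φ y) := by
        rw [map_mul, map_inv]
        exact notMem_mul' (fun h4 => hxy (inv_mem_iff.1 h4)) (h.blk.self _)
      have h4 : Sml φ (x * y) := by
        rw [(h.key2 hy h2).1, mul_div_cancel_right]; exact hs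
      have h5 : Lrg φ (x⁻¹ * y) := by
        rw [(h.key2 hy h3).2.1, mul_div_cancel_right, lrg_inv_iff]; exact hs
      have h6 : φ (x * x) ∈ Nn (φ x) := by
        rw [map_mul]; exact mul_mem (h.blk.self _) (h.blk.self _)
      have e := h.blk.eq_of hx1 hb.1 h6
      have h7 : φ (x * y) ∉ Nn (φ (x * x)) := by
        rw [e, map_mul]
        exact notMem_mul (h.blk.self _) hyx
      have h8 : Lrg φ (x * y) := by
        rw [(h.key2 hb h7).2.1, mul_div_mul_left_eq_div, div_eq_mul_inv, mul_comm]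
        exact h5
      exact not_both (Blk.ne_one h2) h4 h8
    have h2 : φ (x * x) ≠ 1 := by
      rw [map_mul]
      exact fun e => h1 (hodd _ e)
    have h3 := bd_of_mem hx h2
    rcases h.cases h1 with h4 | h4 | h4
    · exact key x h1 h3 h4
    · refine key x⁻¹ (by rw [map_inv]; simpa using h1) ?_ (lrg_iff.1 h4)
      have := h3.inv
      rwa [mul_inv] at this
    · exact hc (mem_Un_of_bd h hT h4)

/-- the valuation ring -/
lemma exists_O (h : TSys φ Nn) (hT : Two φ Nn) {y₀ : Fˣ} (hy₀ : Bd φ y₀)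
    (hodd : ∀ a : A, a * a = 1 → a = 1) :
    ∃ O : ValuationSubring F, Compat (Tn h hT) (Un h hT) O := by
  have h1 := rp h hT hy₀
  exact Pool.Agent.Y447.EP.t_WB' F _ _ h1
    (Pool.Agent.Y98.EP.t_PCD F _ _ h1 (sq_mem h hT hy₀ hodd))

lemma mem_unitGroup_of {O : ValuationSubring F} {u : Fˣ} (h1 : (u : F) ∈ O)
    (h2 : ((u⁻¹ : Fˣ) : F) ∈ O) : u ∈ O.unitGroup := by
  rw [ValuationSubring.mem_unitGroup_iff]
  refine le_antisymm ((O.valuation_le_one_iff _).2 h1) ?_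
  have h3 := (O.valuation_le_one_iff _).2 h2
  rw [Units.val_inv_eq_inv_val, map_inv₀] at h3
  have h4 : 0 < O.valuation (u : F) := zero_lt_iff.2 ((Valuation.ne_zero_iff _).2 u.ne_zero)
  exact (inv_le_one₀ h4).1 h3

lemma unit_iff (h : TSys φ Nn) (hT : Two φ Nn) {y₀ : Fˣ} (hy₀ : Bd φ y₀)
    {O : ValuationSubring F} (hO : Compat (Tn h hT) (Un h hT) O) (u : Fˣ) :
    u ∈ O.unitGroup ↔ u ∈ Un h hT := by
  constructor
  · intro hu
    refine hO.units u ?_ ?_
    · rw [← ValuationSubring.valuation_le_one_iff]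
      exact le_of_eq hu
    · rw [← ValuationSubring.valuation_le_one_iff]
      exact le_of_eq (inv_mem hu : u⁻¹ ∈ O.unitGroup)
  · have hB : ∀ y, Bd φ y → y ∈ O.unitGroup := by
      intro y hy
      have h1 : ∀ y, Bd φ y → (y : F) ∈ O → ((y⁻¹ : Fˣ) : F) ∈ O := by
        intro y hy hyO
        by_contra hc
        rw [Units.val_inv_eq_inv_val] at hc
        obtain ⟨t, ht, e⟩ := hO.one _ hyO hc
        exact hy.not_sml ⟨t, e, (mem_Tn.1 ht).1⟩
      by_cases h2 : (y : F) ∈ O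
      · exact mem_unitGroup_of h2 (h1 y hy h2)
      · have h3 : ((y⁻¹ : Fˣ) : F) ∈ O := by
          rw [Units.val_inv_eq_inv_val]
          exact (O.mem_or_inv_mem _).resolve_left h2
        have := h1 _ hy.inv h3
        rw [inv_inv] at this
        exact absurd this h2
    rintro (hu | ⟨hu, hu'⟩)
    · exact hB u hu
    · have h1 := mul_mem (hB _ (hu' y₀ hy₀)) (inv_mem (hB _ hy₀))
      rwa [mul_inv_cancel_right] at h1

lemma phi_of_principal {h : TSys φ Nn} {hT : Two φ Nn}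
    {O : ValuationSubring F} (hO : Compat (Tn h hT) (Un h hT) O) {g : Fˣ}
    (hg : O.valuation ((g : F) - 1) < 1) : φ g = 1 := by
  by_cases h1 : (g : F) - 1 = 0
  · have : g = 1 := Units.ext (by rw [Units.val_one]; exact sub_eq_zero.1 h1)
    rw [this, map_one]
  · obtain ⟨t, ht, e⟩ := hO.one _ ((O.valuation_le_one_iff _).1 hg.le)
      (Pool.Agent.Y232.EP.of_lt_one h1 hg)
    have : t = g := Units.ext (by rw [e]; ring)
    rw [← this]
    exact (mem_Tn.1 ht).1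

lemma unit_sub {O : ValuationSubring F} {q : Fˣ} (hq : q ∈ O.unitGroup)
    (h1 : ¬ O.valuation ((q : F) - 1) < 1) : ∃ s : Fˣ, s ∈ O.unitGroup ∧ (s : F) = 1 + (-q : Fˣ) := by
  have h2 : O.valuation ((q : F) - 1) ≤ 1 := by
    rw [O.valuation_le_one_iff]
    exact sub_mem ((O.valuation_le_one_iff _).1 (le_of_eq hq)) O.one_mem
  have h3 : O.valuation ((q : F) - 1) = 1 := le_antisymm h2 (not_lt.1 h1)
  have h4 : (q : F) - 1 ≠ 0 := by
    intro e
    rw [e, map_zero] at h3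
    exact zero_ne_one h3
  refine ⟨-Units.mk0 _ h4, ?_, ?_⟩
  · rw [ValuationSubring.mem_unitGroup_iff, Units.val_neg, Valuation.map_neg, Units.val_mk0]
    exact h3
  · rw [Units.val_neg, Units.val_mk0, Units.val_neg]
    ring

/-- the classes `φ(y+t)` distinguish the residues of `t` -/
lemma fib (h : TSys φ Nn) (hT : Two φ Nn) {y₀ : Fˣ} (hy₀ : Bd φ y₀)
    {O : ValuationSubring F} (hO : Compat (Tn h hT) (Un h hT) O) {t₁ t₂ a₁ a₂ : Fˣ}
    (h1 : t₁ ∈ Tn h hT) (h2 : t₂ ∈ Tn h hT) (e1 : (a₁ : F) = y₀ + t₁) (e2 : (a₂ : F) = y₀ + t₂)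
    (he : φ a₁ = φ a₂) : O.valuation (((t₁ / t₂ : Fˣ) : F) - 1) < 1 := by
  rw [mem_Tn] at h1 h2
  have hU := unit_iff h hT hy₀ hO
  have hb : ∀ t a : Fˣ, φ t = 1 → t ∈ Un h hT → (a : F) = y₀ + t → a ∈ Un h hT ∧ φ a ≠ 1 := by
    intro t a ht htU ea
    have h3 : Bd φ (t⁻¹ * y₀) := bd_mul_of_mem (inv_mem htU) hy₀ (by
      rw [map_mul, map_inv, ht, inv_one, one_mul]; exact hy₀.1)
    have h4 : ((a / t : Fˣ) : F) = 1 + (t⁻¹ * y₀ : Fˣ) := by
      rw [Units.val_div_eq_div_val, ea, Units.val_mul, Units.val_inv_eq_inv_val]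
      field_simp
      ring
    have h5 := bd_one_add h hT h3 h4
    have h6 := (Un h hT).mul_mem (mem_Un_of_bd h hT h5) htU
    rw [div_mul_cancel] at h6
    refine ⟨h6, ?_⟩
    have h7 := h5.1
    rwa [map_div, ht, div_one] at h7
  obtain ⟨ha1, hp1⟩ := hb _ _ h1.1 h1.2 e1
  obtain ⟨ha2, hp2⟩ := hb _ _ h2.1 h2.2 e2
  by_contra hc
  have hq : t₁ / t₂ ∈ O.unitGroup := by
    rw [hU]; exact div_mem h1.2 h2.2
  obtain ⟨s, hs, es⟩ := unit_sub hq hc
  -- `1 + (-(a₁/a₂)) = t₂ s / a₂`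
  have e3 : ((t₂ * s / a₂ : Fˣ) : F) = 1 + (-(a₁ / a₂) : Fˣ) := by
    have ha20 : (a₂ : F) ≠ 0 := a₂.ne_zero
    have ht20 : (t₂ : F) ≠ 0 := t₂.ne_zero
    rw [Units.val_div_eq_div_val, Units.val_mul, es, Units.val_neg, Units.val_neg,
      Units.val_div_eq_div_val, Units.val_div_eq_div_val]
    field_simp
    rw [e1, e2]
    ring
  have h3 : φ (-(a₁ / a₂)) = 1 := by
    rw [phi_neg h.neg, map_div, he, div_self']
  have hsU : s ∈ Un h hT := (hU s).1 hs
  have h4 := one_add_ker h hT h3 e3 (div_mem (mul_mem h2.2 hsU) ha2)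
  have h5 : φ (-(t₁ / t₂)) = 1 := by
    rw [phi_neg h.neg, map_div, h1.1, h2.1, div_one]
  have h6 := one_add_ker h hT h5 es hsU
  rw [map_div, map_mul, h2.1, h6, one_mul, one_div] at h4
  exact hp2 (inv_eq_one.1 h4)

/-- contradiction -/
theorem no_two (h : TSys φ Nn) {y₀ z₀ : Fˣ} (hy₀ : Bd φ y₀) (hz₀ : Bd φ z₀)
    (hyz : φ z₀ ∉ Nn (φ y₀)) {p : ℕ} (hp : 0 < p) (hexp : ∀ a : A, a ^ p = 1)
    (hodd : ∀ a : A, a * a = 1 → a = 1) (hfin : (Nn (φ y₀) : Set A).Finite) : False := by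
  have hT : Two φ Nn := h.two_of hy₀ hz₀ hyz
  obtain ⟨O, hO⟩ := exists_O h hT hy₀ hodd
  have hU := unit_iff h hT hy₀ hO
  let ρ := O.unitGroupToResidueFieldUnits
  have hker : ∀ g : O.unitGroup, ρ g = 1 → φ g = 1 := by
    intro g hg
    have h1 : g ∈ ρ.ker := hg
    rw [show ρ.ker = _ from O.ker_unitGroupToResidueFieldUnits, Subgroup.mem_comap,
      Subgroup.coe_subtype, ValuationSubring.mem_principalUnitGroup_iff] at h1
    exact phi_of_principal hO h1
  have hker' : ∀ g : O.unitGroup, O.valuation (((g : Fˣ) : F) - 1) < 1 → ρ g = 1 := by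
    intro g hg
    have h1 : g ∈ ρ.ker := by
      rw [show ρ.ker = _ from O.ker_unitGroupToResidueFieldUnits, Subgroup.mem_comap,
        Subgroup.coe_subtype, ValuationSubring.mem_principalUnitGroup_iff]
      exact hg
    exact h1
  have hsur : Function.Surjective ρ := O.surjective_unitGroupToResidueFieldUnits
  let S : Subgroup O.unitGroup := (Tn h hT).subgroupOf O.unitGroup
  have hTfin : Finite (S.map ρ) := by
    have h1 : ∀ r : S.map ρ, ∃ t : O.unitGroup, (t : Fˣ) ∈ Tn h hT ∧ ρ t = r := by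
      rintro ⟨r, t, ht, rfl⟩
      exact ⟨t, ht, rfl⟩
    choose f hf1 hf2 using h1
    have h2 : ∀ r : S.map ρ, ∃ a : Fˣ, (a : F) = y₀ + (f r : Fˣ) := by
      intro r
      refine h.exists_add ?_
      rw [(mem_Tn.1 (hf1 r)).1]
      exact hy₀.1
    choose a ha using h2
    have h3 : ∀ r, φ (a r) ∈ Nn (φ y₀) := by
      intro r
      have h4 := h.sum' (x := (f r : Fˣ)) (y := y₀) (z := a r) (by rw [ha, add_comm])
      rwa [(mem_Tn.1 (hf1 r)).1, div_one, div_one] at h4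
    have : Finite (Nn (φ y₀) : Set A) := hfin
    refine Finite.of_injective (fun r => (⟨φ (a r), h3 r⟩ : (Nn (φ y₀) : Set A))) ?_
    intro r r' hrr
    have h4 : φ (a r) = φ (a r') := congrArg Subtype.val hrr
    have h5 := fib h hT hy₀ hO (hf1 r) (hf1 r') (ha r) (ha r') h4
    have h6 := hker' (f r / f r') h5
    rw [map_div, div_eq_one, hf2, hf2] at h6
    exact Subtype.ext h6
  have hn0 : 0 < Nat.card (S.map ρ) := Nat.card_pos
  have hpow : ∀ r : (IsLocalRing.ResidueField O)ˣ, r ^ (p * Nat.card (S.map ρ)) = 1 := by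
    intro r
    obtain ⟨u, rfl⟩ := hsur r
    have h1 : ρ u ^ p ∈ S.map ρ := by
      refine ⟨u ^ p, ?_, by rw [map_pow]⟩
      show ((u ^ p : O.unitGroup) : Fˣ) ∈ Tn h hT
      rw [mem_Tn, Subgroup.coe_pow]
      refine ⟨by rw [map_pow]; exact hexp _, pow_mem ((hU _).1 u.2) _⟩
    have h2 : (⟨ρ u ^ p, h1⟩ : S.map ρ) ^ Nat.card (S.map ρ) = 1 := pow_card_eq_one'
    have h3 := congrArg Subtype.val h2
    rw [Subgroup.coe_pow, Subgroup.coe_one] at h3
    rw [pow_mul]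
    exact h3
  obtain ⟨n, hn⟩ : ∃ n, n = p * Nat.card (S.map ρ) := ⟨_, rfl⟩
  rw [← hn] at hpow
  have : NeZero n := ⟨by rw [hn]; positivity⟩
  obtain ⟨g, hg⟩ := IsCyclic.exists_generator (α := rootsOfUnity n (IsLocalRing.ResidueField O))
  obtain ⟨w, hw⟩ := hsur (g : (IsLocalRing.ResidueField O)ˣ)
  have hcyc : ∀ u : Fˣ, Bd φ u → ∃ a : ℤ, φ u = φ (w : Fˣ) ^ a := by
    intro u hu
    have huG : u ∈ O.unitGroup := (hU u).2 (mem_Un_of_bd h hT hu)
    obtain ⟨a, ha⟩ := Subgroup.mem_zpowers_iff.1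
      (hg ⟨ρ ⟨u, huG⟩, (mem_rootsOfUnity _ _).2 (hpow _)⟩)
    have h1 : (g : (IsLocalRing.ResidueField O)ˣ) ^ a = ρ ⟨u, huG⟩ := by
      have := congrArg Subtype.val ha
      rwa [Subgroup.coe_zpow] at this
    have h2 : ρ (⟨u, huG⟩ / w ^ a) = 1 := by
      rw [map_div, map_zpow, hw, h1, div_self']
    have h3 := hker _ h2
    rw [Subgroup.coe_div, Subgroup.coe_zpow, map_div, map_zpow, div_eq_one] at h3
    exact ⟨a, h3⟩
  obtain ⟨a, ha⟩ := hcyc y₀ hy₀
  obtain ⟨b, hb⟩ := hcyc z₀ hz₀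
  have hw1 : φ (w : Fˣ) ≠ 1 := by
    intro e
    rw [e, one_zpow] at ha
    exact hy₀.1 ha
  have h1 : φ y₀ ∈ Nn (φ (w : Fˣ)) := by
    rw [ha]; exact zpow_mem (h.blk.self _) a
  have h2 : φ z₀ ∈ Nn (φ (w : Fˣ)) := by
    rw [hb]; exact zpow_mem (h.blk.self _) b
  rw [← h.blk.eq_of hw1 hy₀.1 h1] at h2
  exact hyz h2

end fld

end Pool.Agent.R675.TP
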