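import Mathlib
import Pool.Agent.R675.TP.Ring
import Pool.Agent.Y920.EP.FieldP
import Pool.Agent.Y920.EP.GalP

set_option autoImplicit false

/-! Transitive vanishing of symbols: the valuation ring of a field. -/

namespace Pool.Agent.R675.TP

open Pool.Agent.Y920.EP
open Pool.Agent.Y920.ETC (PCD Compat)

section card

variable {A : Type} [CommGroup A] {Nn : A → Subgroup A}

/-- blocks with at most `p²` elements are transitive -/
lemma tr_of_card {p : ℕ} (hp : p.Prime) (hexp : ∀ a : A, a ^ p = 1)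
    (symm : ∀ a b : A, b ∈ Nn a → a ∈ Nn b) (self : ∀ a : A, a ∈ Nn a)
    (hcard : ∀ a : A, a ≠ 1 → (Nn a : Set A).Finite ∧ Nat.card (Nn a) ≤ p ^ 2)
    (a b : A) (ha : a ≠ 1) (hb : b ≠ 1) (hab : b ∈ Nn a) : Nn b ≤ Nn a := by
  have hord : ∀ x : A, x ≠ 1 → Nat.card (Subgroup.zpowers x) = p := by
    intro x hx
    rw [Nat.card_zpowers]
    have := Fact.mk hp
    exact orderOf_eq_prime (hexp x) hx
  have : Finite (Nn a : Set A) := (hcard a ha).1
  have : Finite (Nn b : Set A) := (hcard b hb).1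
  have hfa : Finite (Nn a) := (hcard a ha).1
  have hfb : Finite (Nn b) := (hcard b hb).1
  by_cases h1 : b ∈ Subgroup.zpowers a
  · have hfz : Finite (Subgroup.zpowers a) :=
      Nat.finite_of_card_ne_zero (by rw [hord a ha]; exact hp.ne_zero)
    have h2 : Subgroup.zpowers b = Subgroup.zpowers a := by
      refine Subgroup.eq_of_le_of_card_ge (by rwa [Subgroup.zpowers_le]) ?_
      rw [hord a ha, hord b hb]
    have h3 : a ∈ Subgroup.zpowers b := by rw [h2]; exact Subgroup.mem_zpowers a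
    intro c hc
    have h4 : Subgroup.zpowers b ≤ Nn c := by
      rw [Subgroup.zpowers_le]; exact symm _ _ hc
    exact symm _ _ (h4 h3)
  · obtain ⟨K, hK⟩ : ∃ K : Subgroup A, K = Subgroup.zpowers a ⊔ Subgroup.zpowers b := ⟨_, rfl⟩
    have hKa : K ≤ Nn a := by
      rw [hK, sup_le_iff, Subgroup.zpowers_le, Subgroup.zpowers_le]
      exact ⟨self a, hab⟩
    have hKb : K ≤ Nn b := by
      rw [hK, sup_le_iff, Subgroup.zpowers_le, Subgroup.zpowers_le]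
      exact ⟨symm _ _ hab, self b⟩
    have hKf : Finite K := Set.Finite.subset (hcard a ha).1 hKa
    have haK : Subgroup.zpowers a ≤ K := hK ▸ le_sup_left
    have hbK : Subgroup.zpowers b ≤ K := hK ▸ le_sup_right
    have := Fact.mk hp
    have hpg : IsPGroup p K := by
      intro x
      refine ⟨1, ?_⟩
      rw [pow_one]
      exact Subtype.ext (by rw [Subgroup.coe_pow, hexp, Subgroup.coe_one])
    obtain ⟨n, hn⟩ := (IsPGroup.iff_card (p := p) (G := K)).1 hpg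
    have h2 : p < Nat.card K := by
      have h3 : Nat.card (Subgroup.zpowers a) ≤ Nat.card K :=
        Nat.card_mono (Set.toFinite _) haK
      rw [hord a ha] at h3
      refine lt_of_le_of_ne h3 (fun e => h1 ?_)
      have h4 : Subgroup.zpowers a = K := by
        refine Subgroup.eq_of_le_of_card_ge haK ?_
        rw [hord a ha, ← e]
      rw [h4]
      exact hbK (Subgroup.mem_zpowers b)
    have h3 : p ^ 2 ≤ Nat.card K := by
      rw [hn] at h2 ⊢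
      refine Nat.pow_le_pow_right hp.pos ?_
      by_contra hc
      have h5 : n ≤ 1 := by omega
      have h6 : p ^ n ≤ p ^ 1 := Nat.pow_le_pow_right hp.pos h5
      rw [pow_one] at h6
      omega
    have h4 : K = Nn b := Subgroup.eq_of_le_of_card_ge hKb ((hcard b hb).2.trans h3)
    rw [← h4]
    exact hKa

end card

section quot

variable {F : Type} [Field F] {p : ℕ} {A : Type} [CommGroup A] {φ : Fˣ →* A}
  (hφ : Function.Surjective φ) (hk : φ.ker = pwG F p)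

include hk in
lemma nn_symm (hng : S_NG) (hsy : S_SYMM) (hp : p.Prime) (hp2 : p ≠ 2)
    (hζ : ∃ ζ : F, IsPrimitiveRoot ζ p) (a b : A) (hab : b ∈ NnF p φ hφ a) :
    a ∈ NnF p φ hφ b := by
  obtain ⟨ζ, hζ⟩ := hζ
  obtain ⟨u, rfl⟩ := hφ a
  obtain ⟨v, rfl⟩ := hφ b
  by_cases hv : φ v = 1
  · rw [NnF, if_pos hv]; trivial
  by_cases hu : φ u = 1
  · rw [hu]; exact one_mem _
  rw [mem_Nn hφ hk hng hp hp2 hu] at hab
  rw [mem_Nn hφ hk hng hp hp2 hv]
  refine hsy p hp hp2 F ζ hζ u v ?_ ?_ hab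
  · rw [← hk, MonoidHom.mem_ker]; exact hu
  · rw [← hk, MonoidHom.mem_ker]; exact hv

include hk in
lemma nn_sum (hng : S_NG) (hp : p.Prime) (hp2 : p ≠ 2) (u v : Fˣ) (huv : (v : F) = 1 + u) :
    φ v ∈ NnF p φ hφ (φ u) := by
  by_cases hu : φ u = 1
  · rw [NnF, if_pos hu]; trivial
  rw [mem_Nn hφ hk hng hp hp2 hu]
  exact (hng p hp hp2 F).2.1 u v huv

include hk in
lemma phi_neg_one (hp : p.Prime) (hp2 : p ≠ 2) : φ (-1) = 1 := by
  have hodd : Odd p := hp.odd_of_ne_two hp2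
  rw [phi_one hk]
  exact ⟨-1, hodd.neg_one_pow.symm⟩

include hk in
lemma nn_self (hng : S_NG) (hsy : S_SYMM) (hp : p.Prime) (hp2 : p ≠ 2)
    (hζ : ∃ ζ : F, IsPrimitiveRoot ζ p) (a : A) : a ∈ NnF p φ hφ a := by
  by_cases ha : a = 1
  · rw [ha]; exact one_mem _
  obtain ⟨u, rfl⟩ := hφ a
  have hn := phi_neg_one hk hp hp2
  have hu : (1 : F) + u ≠ 0 := by
    have := add_ne hn (x := 1) (y := u) (by rw [map_one]; exact fun e => ha e.symm)
    rwa [Units.val_one] at this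
  have h1 := nn_sum hφ hk hng hp hp2 u (Units.mk0 _ hu) (Units.val_mk0 hu)
  have h2 := nn_sum hφ hk hng hp hp2 u⁻¹ (Units.mk0 _ hu / u) (one_add_inv (Units.val_mk0 hu))
  have h3 : φ (Units.mk0 _ hu / u) ∈ NnF p φ hφ (φ u) := by
    have h4 := nn_symm hφ hk hng hsy hp hp2 hζ _ _ h2
    rw [map_inv] at h4
    exact nn_symm hφ hk hng hsy hp hp2 hζ _ _ (inv_mem_iff.1 h4)
  have h5 := div_mem h1 h3
  rw [← map_div, div_div_cancel] at h5
  exact h5

include hk in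
lemma tsys (hng : S_NG) (hsy : S_SYMM) (hp : p.Prime) (hp2 : p ≠ 2)
    (hζ : ∃ ζ : F, IsPrimitiveRoot ζ p)
    (htr : ∀ a b c : Fˣ, a ∉ pwG F p → b ∉ pwG F p → b ∈ nmG p a → c ∈ nmG p b →
      c ∈ nmG p a) : TSys φ (NnF p φ hφ) := by
  refine ⟨phi_neg_one hk hp hp2, ⟨nn_symm hφ hk hng hsy hp hp2 hζ,
    nn_self hφ hk hng hsy hp hp2 hζ, ?_⟩, nn_sum hφ hk hng hp hp2⟩
  intro a b hb hab c hc
  obtain ⟨u, rfl⟩ := hφ a
  obtain ⟨v, rfl⟩ := hφ b
  obtain ⟨w, rfl⟩ := hφ c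
  by_cases hu : φ u = 1
  · rw [NnF, if_pos hu]; trivial
  rw [mem_Nn hφ hk hng hp hp2 hu] at hab ⊢
  rw [mem_Nn hφ hk hng hp hp2 hb] at hc
  exact htr u v w (by rw [← hk, MonoidHom.mem_ker]; exact hu)
    (by rw [← hk, MonoidHom.mem_ker]; exact hb) hab hc

end quot

/-- transitivity from small norm groups -/
lemma tr_of_small (hng : S_NG) (hsy : S_SYMM) {p : ℕ} (hp : p.Prime) (hp2 : p ≠ 2) (F : Type)
    [Field F] (hζ : ∃ ζ : F, IsPrimitiveRoot ζ p)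
    (hN : ∀ a : Fˣ, a ∉ pwG F p →
      (pwG F p).relIndex (nmG p a) ≠ 0 ∧ (pwG F p).relIndex (nmG p a) ≤ p ^ 2)
    (a b c : Fˣ) (ha : a ∉ pwG F p) (hb : b ∉ pwG F p) (hab : b ∈ nmG p a)
    (hbc : c ∈ nmG p b) : c ∈ nmG p a := by
  obtain ⟨A, _, φ, hφ, hk⟩ := exists_quot F (pwG F p)
  have hS := sys hφ hk hng hsy hp hp2 hζ (p ^ 2) hN
  have hu : ∀ u : Fˣ, u ∉ pwG F p → φ u ≠ 1 := by
    intro u hu e
    exact hu (by rw [← hk, MonoidHom.mem_ker]; exact e)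
  have h1 := tr_of_card hp (exp_p hφ hk) (nn_symm hφ hk hng hsy hp hp2 hζ)
    (nn_self hφ hk hng hsy hp hp2 hζ) (fun x hx => ⟨(hS.fin x hx).1, by
      have := (hS.fin x hx).2
      rwa [← Nat.card_coe_set_eq] at this⟩) (φ a) (φ b) (hu a ha) (hu b hb)
    ((mem_Nn hφ hk hng hp hp2 (hu a ha)).2 hab)
  exact (mem_Nn hφ hk hng hp hp2 (hu a ha)).1
    (h1 ((mem_Nn hφ hk hng hp hp2 (hu b hb)).2 hbc))

/-- the valuation ring -/
theorem exists_val (hng : S_NG) (hsy : S_SYMM) (hpcd : S_PCD) (hwb : S_WB') (hco : S_COARSE')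
    (p : ℕ) (hp : p.Prime) (hp2 : p ≠ 2) (F : Type) [Field F]
    (hζ : ∃ ζ : F, IsPrimitiveRoot ζ p)
    (hfin : ∀ a : Fˣ, a ∉ pwG F p → (pwG F p).relIndex (nmG p a) ≠ 0)
    (htr : ∀ a b c : Fˣ, a ∉ pwG F p → b ∉ pwG F p → b ∈ nmG p a → c ∈ nmG p b →
      c ∈ nmG p a)
    (hne : ∃ a : Fˣ, a ∉ pwG F p ∧ nmG p a ≠ ⊤) :
    ∃ (b : Fˣ) (O : ValuationSubring F), b ∉ pwG F p ∧ nmG p b ≠ ⊤ ∧
      O.unitGroup ≤ nmG p b ∧ Pw p O ∧
      ∀ u v : Fˣ, u ∉ pwG F p → u ∈ nmG p b → v ∈ nmG p b → v ∈ nmG p u := by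
  obtain ⟨A, _, φ, hφ, hk⟩ := exists_quot F (pwG F p)
  have hT := tsys hφ hk hng hsy hp hp2 hζ htr
  have hexp : ∀ a : A, a ^ p = 1 := exp_p hφ hk
  have hodd : Odd p := hp.odd_of_ne_two hp2
  have hmem : ∀ u : Fˣ, u ∉ pwG F p ↔ φ u ≠ 1 := by
    intro u
    rw [← hk, MonoidHom.mem_ker]
  have hodd' : ∀ a : A, a * a = 1 → a = 1 := by
    intro a ha
    obtain ⟨m, hm⟩ := hodd
    have h1 := hexp a
    rw [hm, pow_succ, pow_mul, pow_two, ha, one_pow, one_mul] at h1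
    exact h1
  have hfin' : ∀ u : Fˣ, φ u ≠ 1 → (NnF p φ hφ (φ u) : Set A).Finite := by
    intro u hu
    have e : NnF p φ hφ (φ u) = (nmG p u).map φ := by
      ext b
      obtain ⟨v, rfl⟩ := hφ b
      rw [mem_Nn hφ hk hng hp hp2 hu]
      constructor
      · exact fun h => ⟨v, h, rfl⟩
      · rintro ⟨c, hc, e⟩
        have h1 : φ c ∈ NnF p φ hφ (φ u) := (mem_Nn hφ hk hng hp hp2 hu).2 hc
        rw [e] at h1
        exact (mem_Nn hφ hk hng hp hp2 hu).1 h1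
    have h1 := hfin u ((hmem u).2 hu)
    rw [← hk, Subgroup.relIndex_ker, ← e] at h1
    have hf : Finite (NnF p φ hφ (φ u)) := Nat.finite_of_card_ne_zero h1
    exact Set.toFinite _
  -- the block
  obtain ⟨b, hb1, hbad⟩ : ∃ b : Fˣ, φ b ≠ 1 ∧ ∀ y : Fˣ, Bd φ y → φ y ∈ NnF p φ hφ (φ b) := by
    by_cases h1 : ∃ y, Bd φ y
    · obtain ⟨y, hy⟩ := h1
      refine ⟨y, hy.1, fun z hz => ?_⟩
      by_contra hc
      exact no_two hT hy hz hc hp.pos hexp hodd' (hfin' y hy.1)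
    · obtain ⟨a, ha, -⟩ := hne
      exact ⟨a, (hmem a).1 ha, fun y hy => absurd ⟨y, hy⟩ h1⟩
  have hbtop : nmG p b ≠ ⊤ := by
    intro e
    obtain ⟨a, ha, ha'⟩ := hne
    apply ha'
    rw [eq_top_iff]
    intro c _
    have h1 : ∀ x : Fˣ, φ x ∈ NnF p φ hφ (φ b) := fun x =>
      (mem_Nn hφ hk hng hp hp2 hb1).2 (by rw [e]; trivial)
    have h2 := hT.blk.eq_of hb1 ((hmem a).1 ha) (h1 a)
    exact (mem_Nn hφ hk hng hp hp2 ((hmem a).1 ha)).1 (h2 ▸ h1 c)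
  obtain ⟨K, hKdef⟩ : ∃ K : Subgroup A, K = NnF p φ hφ (φ b) := ⟨_, rfl⟩
  have hNR : NR φ ⊆ (K : Set A) := by
    rintro a ⟨ha1, r, s, hr, hrs, hs1, hs2⟩
    have h1 : φ (-r) = a := by rw [phi_neg hT.neg, hr]
    have h2 : Bd φ (-r) := by
      rw [Bd.iff (s := s) (by rw [Units.val_neg]; linear_combination hrs), h1]
      exact ⟨ha1, hs1, hs2⟩
    have h3 := hbad _ h2
    rw [h1, ← hKdef] at h3
    exact h3
  have hRP : RP φ.ker (K.comap φ) := rp_of hT.neg K hNR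
  have hsq : ∀ x : Fˣ, x * x ∈ K.comap φ → x ∈ K.comap φ := by
    intro x hx
    rw [Subgroup.mem_comap] at hx ⊢
    obtain ⟨m, hm⟩ := hodd
    have : φ x = φ (x * x) ^ (m + 1) := by
      rw [map_mul, ← pow_two, ← pow_mul, show 2 * (m + 1) = p + 1 by omega, pow_succ, hexp,
        one_mul]
    rw [this]
    exact pow_mem hx _
  have hpF : (p : F) ≠ 0 := by
    obtain ⟨ζ, hζ⟩ := hζ
    haveI : NeZero p := ⟨hp.ne_zero⟩
    exact hζ.neZero'.ne
  have hP := hpcd F φ.ker (K.comap φ) hRP hsq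
  obtain ⟨O, hO⟩ := hwb F φ.ker (K.comap φ) hRP hP
  obtain ⟨O', -, hpO, hO'⟩ := hco F p hp hpF φ.ker (K.comap φ)
    (fun x => by rw [MonoidHom.mem_ker, phi_one hk]) hRP.le O hO
  refine ⟨b, O', (hmem b).2 hb1, hbtop, ?_, ⟨hpO, hpF, ?_⟩, ?_⟩
  · intro u hu
    have h1 : u ∈ K.comap φ := by
      refine hO'.units u ?_ ?_
      · rw [← ValuationSubring.valuation_le_one_iff]
        exact le_of_eq hu
      · rw [← ValuationSubring.valuation_le_one_iff]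
        exact le_of_eq (inv_mem hu : u⁻¹ ∈ O'.unitGroup)
    rw [Subgroup.mem_comap, hKdef] at h1
    exact (mem_Nn hφ hk hng hp hp2 hb1).1 h1
  · intro x hx hx'
    obtain ⟨t, ht, e⟩ := hO'.one x hx hx'
    rw [MonoidHom.mem_ker, phi_one hk] at ht
    obtain ⟨b, rfl⟩ := ht
    exact ⟨b, by rw [← e, Units.val_pow_eq_pow_val]⟩
  · intro u v hu hub hvb
    rw [hmem] at hu
    have h1 := (mem_Nn hφ hk hng hp hp2 hb1).2 hub
    have h2 := (mem_Nn hφ hk hng hp hp2 hb1).2 hvb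
    rw [← hT.blk.eq_of hb1 hu h1] at h2
    exact (mem_Nn hφ hk hng hp hp2 hu).1 h2

end Pool.Agent.R675.TP
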