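import Mathlib
import Pool.Agent.Y349.EP.Symm
import Pool.Agent.Y86.EP.Kum
import Pool.Agent.Y279.EP.Up
import Pool.Agent.Y620.ET.Extv
import Pool.Agent.Y232.EP.Coarse

set_option autoImplicit false

/-! Norm groups of ramified extensions. -/

namespace Pool.Agent.R675.TP

open Polynomial Pool.Agent.Y920.EP

section

variable {F L : Type} [Field F] [Field L] [Algebra F L]

/-- different terms have different values -/
lemma val_ne {p : ℕ} (hp : p.Prime) {O : ValuationSubring F} {O₁ : ValuationSubring L}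
    (h : O₁.comap (algebraMap F L) = O) {α : L} {a : F} (hα : α ^ p = algebraMap F L a)
    (ha : a ≠ 0) (hR : ∀ f : F, f ≠ 0 → ¬ (a * f ^ p ∈ O ∧ (a * f ^ p)⁻¹ ∈ O)) {i j : ℕ}
    (hi : i < p) (hj : j < p) (hij : i ≠ j) {g : F} (hg0 : g ≠ 0) :
    O₁.valuation (algebraMap F L g * α ^ ((i : ℤ) - j)) ≠ 1 := by
  intro hval
  have hcop : IsCoprime ((i : ℤ) - j) (p : ℤ) := by
    rw [Int.isCoprime_iff_gcd_eq_one, Int.gcd_comm]
    have h3 : ¬ (p : ℤ) ∣ (i : ℤ) - j := by
      intro hd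
      apply hij
      obtain ⟨k, hk⟩ := hd
      have h4 : (i : ℤ) < p := by exact_mod_cast hi
      have h5 : (j : ℤ) < p := by exact_mod_cast hj
      have h6 : (0 : ℤ) ≤ i := by positivity
      have h7 : (0 : ℤ) ≤ j := by positivity
      have h8 : k = 0 := by
        by_contra hk0
        rcases lt_or_gt_of_ne hk0 with h9 | h9
        · have : k ≤ -1 := by omega
          nlinarith
        · have : 1 ≤ k := by omega
          nlinarith
      rw [h8, mul_zero] at hk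
      omega
    have h4 := (Nat.prime_iff_prime_int.1 hp).coprime_iff_not_dvd.2 h3
    exact Int.isCoprime_iff_gcd_eq_one.1 h4
  obtain ⟨u, v, huv⟩ := hcop
  have hval2 : O₁.valuation (algebraMap F L (a * (g ^ u * a ^ (-v)) ^ p)) = 1 := by
    have : algebraMap F L (a * (g ^ u * a ^ (-v)) ^ p) =
        ((algebraMap F L g * α ^ ((i : ℤ) - j)) ^ u) ^ (p : ℤ) := by
      have e1 : ((α : L) ^ ((i : ℤ) - j)) ^ (p : ℤ) = algebraMap F L a ^ ((i : ℤ) - j) := by
        rw [← hα, ← zpow_natCast, ← zpow_mul, ← zpow_mul, mul_comm]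
      have e2 : algebraMap F L a = algebraMap F L a ^ (((i : ℤ) - j) * u + v * p) := by
        rw [mul_comm ((i : ℤ) - j) u, huv, zpow_one]
      have ha' : algebraMap F L a ≠ 0 := (_root_.map_ne_zero _).2 ha
      rw [← zpow_mul, mul_comm u (p : ℤ), zpow_mul, mul_zpow, e1, mul_zpow, map_mul, map_pow,
        map_mul, map_zpow₀, map_zpow₀, mul_pow, ← zpow_natCast, ← zpow_natCast, ← zpow_mul,
        ← zpow_mul, ← zpow_mul]
      nth_rewrite 1 [e2]
      rw [zpow_add₀ ha', ← zpow_mul, neg_mul, zpow_neg, mul_comm u (p : ℤ)]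
      have : algebraMap F L a ^ (v * (p : ℤ)) ≠ 0 := zpow_ne_zero _ ha'
      field_simp
    rw [this, map_zpow₀, map_zpow₀, hval, one_zpow, one_zpow]
  exact hR _ (mul_ne_zero (zpow_ne_zero _ hg0) (zpow_ne_zero _ ha))
    (Pool.Agent.Y86.EP.val_eq_one h _ hval2)

/-- elements of `L` are `t y^p` for a term `t` -/
lemma exists_term {p : ℕ} (hp : p.Prime) {O : ValuationSubring F} {O₁ : ValuationSubring L}
    (h : O₁.comap (algebraMap F L) = O) (hO₁ : Pw p O₁) {α : L} {a : F}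
    (hα : α ^ p = algebraMap F L a)
    (ha : a ≠ 0) (hR : ∀ f : F, f ≠ 0 → ¬ (a * f ^ p ∈ O ∧ (a * f ^ p)⁻¹ ∈ O)) (f : ℕ → F)
    (z : L) (hz0 : z ≠ 0) (hz : z = ∑ i ∈ Finset.range p, algebraMap F L (f i) * α ^ i) :
    ∃ (j : ℕ) (c : F) (y : L), c ≠ 0 ∧ y ≠ 0 ∧ z = algebraMap F L c * α ^ j * y ^ p := by
  classical
  have hα0 : α ≠ 0 := by
    rintro rfl
    rw [zero_pow hp.ne_zero] at hα
    exact ha ((map_eq_zero (algebraMap F L)).1 hα.symm)
  obtain ⟨t, ht⟩ : ∃ t : ℕ → L, t = fun i => algebraMap F L (f i) * α ^ i := ⟨_, rfl⟩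
  obtain ⟨j, hj, hmax⟩ := Finset.exists_max_image (Finset.range p) (fun i => O₁.valuation (t i))
    ⟨0, Finset.mem_range.2 hp.pos⟩
  have hj' : j < p := Finset.mem_range.1 hj
  have hzt : z = ∑ i ∈ Finset.range p, t i := by rw [hz, ht]
  have htj : t j ≠ 0 := by
    intro h0
    apply hz0
    rw [hzt]
    refine Finset.sum_eq_zero fun i hi => ?_
    have h1 := hmax i hi
    rw [h0, map_zero] at h1
    exact (Valuation.zero_iff _).1 (le_antisymm h1 zero_le')
  have hfj : f j ≠ 0 := by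
    intro e
    apply htj
    rw [ht]
    simp [e]
  have hlt : ∀ i ∈ Finset.range p \ {j}, O₁.valuation (t i) < O₁.valuation (t j) := by
    intro i hi
    rw [Finset.mem_sdiff, Finset.mem_singleton] at hi
    refine lt_of_le_of_ne (hmax i hi.1) fun he => ?_
    have hfi : f i ≠ 0 := by
      intro e
      have h1 : t i = 0 := by rw [ht]; simp [e]
      rw [h1, map_zero] at he
      exact htj ((Valuation.zero_iff _).1 he.symm)
    refine val_ne hp h hα ha hR (Finset.mem_range.1 hi.1) hj' hi.2 (g := f i / f j)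
      (div_ne_zero hfi hfj) ?_
    have : algebraMap F L (f i / f j) * α ^ ((i : ℤ) - j) = t i / t j := by
      rw [zpow_sub₀ hα0, map_div₀, zpow_natCast, zpow_natCast, ht]
      field_simp
    rw [this, map_div₀, he, div_self]
    exact (Valuation.ne_zero_iff _).2 htj
  have hvt : O₁.valuation (t j) ≠ 0 := (Valuation.ne_zero_iff _).2 htj
  have hsum : O₁.valuation (z - t j) < O₁.valuation (t j) := by
    have h1 : z - t j = ∑ i ∈ Finset.range p \ {j}, t i := by
      rw [hzt, ← Finset.sum_sdiff (Finset.singleton_subset_iff.2 hj), Finset.sum_singleton,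
        add_sub_cancel_right]
    rw [h1]
    exact Valuation.map_sum_lt O₁.valuation hvt hlt
  obtain ⟨x, hx⟩ : ∃ x : L, x = (z - t j) / t j := ⟨_, rfl⟩
  have hx1 : O₁.valuation x < 1 := by
    rw [hx, map_div₀]
    exact (div_lt_one₀ (zero_lt_iff.2 hvt)).2 hsum
  have hzx : z = t j * (1 + x) := by
    rw [hx]
    field_simp
    ring
  obtain ⟨y, hy⟩ : ∃ y : L, y ^ p = 1 + x := by
    by_cases hx0 : x = 0
    · exact ⟨1, by rw [hx0, one_pow, add_zero]⟩
    · exact hO₁.2.2 x ((O₁.valuation_le_one_iff _).1 hx1.le)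
        (Pool.Agent.Y232.EP.of_lt_one hx0 hx1)
  refine ⟨j, f j, y, hfj, ?_, ?_⟩
  · rintro rfl
    rw [zero_pow hp.ne_zero] at hy
    rw [← hy, mul_zero] at hzx
    exact hz0 hzx
  · rw [hy, hzx, ht]

end

/-- the norm group of `a`, if no `a f^p` is a unit -/
theorem nmG_ram (p : ℕ) (hp : p.Prime) (hp2 : p ≠ 2) (F : Type) [Field F]
    (hζ : ∃ ζ : F, IsPrimitiveRoot ζ p) (O : ValuationSubring F) (hO : Pw p O) (a : Fˣ)
    (hR : ∀ f : F, f ≠ 0 → ¬ ((a : F) * f ^ p ∈ O ∧ ((a : F) * f ^ p)⁻¹ ∈ O)) (b : Fˣ)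
    (hb : b ∈ nmG p a) : ∃ (j : ℕ) (c : Fˣ), b = a ^ j * c ^ p := by
  have ha : a ∉ pwG F p := by
    rintro ⟨c, hc⟩
    have hc' : c ^ p = a := hc
    refine hR (c⁻¹ : Fˣ) (Units.ne_zero _) ?_
    have e : (a : F) * ((c⁻¹ : Fˣ) : F) ^ p = 1 := by
      rw [← hc', ← Units.val_pow_eq_pow_val, ← Units.val_mul, ← mul_pow, mul_inv_cancel, one_pow,
        Units.val_one]
    rw [e, inv_one]
    exact ⟨O.one_mem, O.one_mem⟩
  have Ha := Pool.Agent.Y349.EP.irr hp a ha
  have := Fact.mk Ha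
  have : NeZero p := ⟨hp.ne_zero⟩
  obtain ⟨ζ, hζ'⟩ := id hζ
  have hne : (primitiveRoots p F).Nonempty := ⟨ζ, (mem_primitiveRoots hp.pos).mpr hζ'⟩
  have := isSplittingField_AdjoinRoot_X_pow_sub_C hne Ha
  have := isGalois_of_isSplittingField_X_pow_sub_C hne Ha (AdjoinRoot (X ^ p - C (a : F)))
  have : FiniteDimensional F (AdjoinRoot (X ^ p - C (a : F))) :=
    (AdjoinRoot.powerBasis (Pool.Agent.Y349.EP.ne0 hp.pos (a : F))).finite
  have hfr := Pool.Agent.Y349.EP.finrank_eq (F := F) hp.pos (a : F)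
  have hα := Pool.Agent.Y349.EP.root_pow (p := p) (a : F)
  obtain ⟨O₁, hO₁⟩ := Pool.Agent.Y620.ET.t_EXTV F (AdjoinRoot (X ^ p - C (a : F))) O
  have hinv : ∀ (σ : (AdjoinRoot (X ^ p - C (a : F))) ≃ₐ[F] (AdjoinRoot (X ^ p - C (a : F))))
      (x : AdjoinRoot (X ^ p - C (a : F))), σ x ∈ O₁ ↔ x ∈ O₁ := by
    intro σ x
    have h2 : (O₁.comap (σ : (AdjoinRoot (X ^ p - C (a : F))) →+*
        (AdjoinRoot (X ^ p - C (a : F))))).comap
        (algebraMap F (AdjoinRoot (X ^ p - C (a : F)))) = O := by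
      rw [← hO₁]
      ext f
      rw [ValuationSubring.mem_comap, ValuationSubring.mem_comap, ValuationSubring.mem_comap]
      have : (σ : (AdjoinRoot (X ^ p - C (a : F))) →+* (AdjoinRoot (X ^ p - C (a : F))))
        (algebraMap F (AdjoinRoot (X ^ p - C (a : F))) f) =
          algebraMap F (AdjoinRoot (X ^ p - C (a : F))) f := σ.commutes f
      rw [this]
    have h3 := Pool.Agent.Y86.EP.t_KUM p hp F (AdjoinRoot (X ^ p - C (a : F))) hζ hfr O hO.2.2 _ _
      hO₁ h2
    have h4 : x ∈ O₁ ↔ x ∈ O₁.comap (σ : (AdjoinRoot (X ^ p - C (a : F))) →+*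
        (AdjoinRoot (X ^ p - C (a : F)))) := by rw [← h3]
    exact h4.symm
  have hPw := Pool.Agent.Y279.EP.t_UP p hp hp2 F (AdjoinRoot (X ^ p - C (a : F))) hζ hfr O hO O₁ hO₁
    hinv
  obtain ⟨z, hz⟩ := hb
  have htop : IntermediateField.adjoin F {AdjoinRoot.root (X ^ p - C (a : F))} = ⊤ := by
    rw [eq_top_iff]
    intro x _
    have h1 : x ∈ Algebra.adjoin F {AdjoinRoot.root (X ^ p - C (a : F))} := by
      rw [AdjoinRoot.adjoinRoot_eq_top]; trivial
    exact IntermediateField.algebra_adjoin_le_adjoin F _ h1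
  obtain ⟨f, hf⟩ := Pool.Agent.Y86.EP.span_pow hp hα htop (z : AdjoinRoot (X ^ p - C (a : F)))
  obtain ⟨j, c, y, hc, hy, e⟩ := exists_term hp hO₁ hPw hα a.ne_zero hR f _ z.ne_zero hf
  have h1 : Algebra.norm F (AdjoinRoot.root (X ^ p - C (a : F))) = a := by
    have h2 := Pool.Agent.Y349.EP.norm_sub_root (F := F) hp.pos (a : F) 0
    have hodd : Odd p := hp.odd_of_ne_two hp2
    have h3 : algebraMap F (AdjoinRoot (X ^ p - C (a : F))) 0 -
        AdjoinRoot.root (X ^ p - C (a : F)) =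
        algebraMap F (AdjoinRoot (X ^ p - C (a : F))) (-1) *
          AdjoinRoot.root (X ^ p - C (a : F)) := by
      rw [map_zero, map_neg, map_one]; ring
    rw [h3, map_mul, Pool.Agent.Y349.EP.norm_scalar hp.pos, hodd.neg_one_pow,
      zero_pow hp.ne_zero] at h2
    linear_combination -h2
  have h2 : (b : F) = (a : F) ^ j * (c * Algebra.norm F y) ^ p := by
    have h3 : Algebra.norm F (z : AdjoinRoot (X ^ p - C (a : F))) = b := congrArg Units.val hz
    rw [← h3, e, map_mul, map_mul, map_pow, map_pow, h1, Pool.Agent.Y349.EP.norm_scalar hp.pos]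
    ring
  have hcy : c * Algebra.norm F y ≠ 0 := mul_ne_zero hc (Algebra.norm_ne_zero_iff.2 hy)
  exact ⟨j, Units.mk0 _ hcy, Units.ext (by
    rw [h2, Units.val_mul, Units.val_pow_eq_pow_val, Units.val_pow_eq_pow_val, Units.val_mk0])⟩

end Pool.Agent.R675.TP
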