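import Mathlib
import Pool.Agent.R675.TP.Fld
import Pool.Agent.R675.TP.Ram

set_option autoImplicit false

/-! Transitive vanishing of symbols: the classification. -/

namespace Pool.Agent.R675.TP

open Pool.Agent.Y920.EP

/-- a power prime to `p` determines the class -/
lemma mem_of_pow {F : Type} [Field F] {p : ℕ} (hp : p.Prime) {U : Subgroup Fˣ}
    (hU : pwG F p ≤ U) {a : Fˣ} {j : ℕ} (hj : ¬ p ∣ j) (h : a ^ j ∈ U) : a ∈ U := by
  have h1 : Nat.Coprime j p := (Nat.coprime_comm.1 ((Nat.Prime.coprime_iff_not_dvd hp).2 hj))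
  have h2 := Nat.gcd_eq_gcd_ab j p
  rw [h1.gcd_eq_one] at h2
  have h3 : a = (a ^ j) ^ (Nat.gcdA j p) * (a ^ (Nat.gcdB j p)) ^ p := by
    rw [← zpow_natCast, ← zpow_natCast, ← zpow_mul, ← zpow_mul, ← zpow_add,
      mul_comm (Nat.gcdB j p) (p : ℤ), ← h2]
    simp
  rw [h3]
  exact mul_mem (zpow_mem h _) (hU ⟨_, rfl⟩)

lemma trans_of {p : ℕ} (hp : p.Prime) (F : Type) [Field F] (U : Subgroup Fˣ) (hU : pwG F p ≤ U)
    (h1 : ∀ u : Fˣ, u ∉ pwG F p → u ∈ U → nmG p u = U)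
    (h2 : ∀ a : Fˣ, a ∉ U → nmG p a = Subgroup.zpowers a ⊔ pwG F p)
    (a b c : Fˣ) (ha : a ∉ pwG F p) (hb : b ∉ pwG F p) (hab : b ∈ nmG p a)
    (hbc : c ∈ nmG p b) : c ∈ nmG p a := by
  by_cases haU : a ∈ U
  · rw [h1 a ha haU] at hab ⊢
    rwa [h1 b hb hab] at hbc
  · rw [h2 a haU] at hab ⊢
    obtain ⟨x, hx, y, hy, hxy⟩ := Subgroup.mem_sup.1 hab
    obtain ⟨n, rfl⟩ := Subgroup.mem_zpowers_iff.1 hx
    have hbU : b ∉ U := by
      intro hbU
      have h3 : a ^ n ∈ U := by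
        have h4 : a ^ n = b * y⁻¹ := by rw [← hxy, mul_inv_cancel_right]
        rw [h4]
        exact mul_mem hbU (inv_mem (hU hy))
      by_cases hd : (p : ℤ) ∣ n
      · obtain ⟨m, rfl⟩ := hd
        apply hb
        rw [← hxy]
        refine mul_mem ⟨a ^ m, ?_⟩ hy
        show (a ^ m) ^ p = _
        rw [← zpow_natCast, ← zpow_mul, mul_comm]
      · apply haU
        refine mem_of_pow hp hU (j := n.natAbs) (fun hd' => hd (Int.natCast_dvd.2 hd')) ?_
        rcases Int.natAbs_eq n with e | e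
        · rw [e, zpow_natCast] at h3; exact h3
        · rw [e, zpow_neg, zpow_natCast] at h3; exact inv_mem_iff.1 h3
    rw [h2 b hbU] at hbc
    have h5 : Subgroup.zpowers b ⊔ pwG F p ≤ Subgroup.zpowers a ⊔ pwG F p := by
      refine sup_le ?_ le_sup_right
      rw [Subgroup.zpowers_le, ← hxy]
      exact mul_mem (Subgroup.mem_sup_left hx) (Subgroup.mem_sup_right hy)
    exact h5 hbc

theorem classify (hng : S_NG) (hsy : S_SYMM) (hpcd : S_PCD) (hwb : S_WB') (hco : S_COARSE')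
    (p : ℕ) (hp : p.Prime) (hp2 : p ≠ 2) (F : Type) [Field F]
    (hζ : ∃ ζ : F, IsPrimitiveRoot ζ p)
    (hfin : ∀ a : Fˣ, a ∉ pwG F p → (pwG F p).relIndex (nmG p a) ≠ 0)
    (htr : ∀ a b c : Fˣ, a ∉ pwG F p → b ∉ pwG F p → b ∈ nmG p a → c ∈ nmG p b →
      c ∈ nmG p a)
    (hne : ∃ a : Fˣ, a ∉ pwG F p ∧ nmG p a ≠ ⊤) :
    ∃ O : ValuationSubring F, Pw p O ∧ O.unitGroup ⊔ pwG F p ≠ ⊤ ∧
      (∀ u : Fˣ, u ∉ pwG F p → u ∈ O.unitGroup ⊔ pwG F p →
        nmG p u = O.unitGroup ⊔ pwG F p) ∧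
      ∀ a : Fˣ, a ∉ O.unitGroup ⊔ pwG F p → nmG p a = Subgroup.zpowers a ⊔ pwG F p := by
  obtain ⟨b, O, hb, hbt, hOb, hPw, hblk⟩ := exists_val hng hsy hpcd hwb hco p hp hp2 F hζ hfin
    htr hne
  have hpow : ∀ a : Fˣ, pwG F p ≤ nmG p a := by
    rintro a _ ⟨c, rfl⟩
    exact (hng p hp hp2 F).1 a c
  have hself : ∀ a : Fˣ, a ∉ pwG F p → a ∈ nmG p a := by
    intro a ha
    obtain ⟨A, _, φ, hφ, hk⟩ := exists_quot F (pwG F p)
    have h1 := nn_self hφ hk hng hsy hp hp2 hζ (φ a)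
    exact (mem_Nn hφ hk hng hp hp2 (fun e => ha (by rw [← hk, MonoidHom.mem_ker]; exact e))).1 h1
  have hUb : O.unitGroup ⊔ pwG F p ≤ nmG p b := sup_le hOb (hpow b)
  have hram : ∀ a : Fˣ, a ∉ O.unitGroup ⊔ pwG F p →
      nmG p a = Subgroup.zpowers a ⊔ pwG F p := by
    intro a ha
    have hap : a ∉ pwG F p := fun h => ha (Subgroup.mem_sup_right h)
    refine le_antisymm ?_ (sup_le ?_ (hpow a))
    · intro c hc
      obtain ⟨j, d, e⟩ := nmG_ram p hp hp2 F hζ O hPw a (by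
        rintro f hf ⟨h1, h2⟩
        apply ha
        have h3 : a * Units.mk0 f hf ^ p ∈ O.unitGroup := by
          refine mem_unitGroup_of ?_ ?_
          · rw [Units.val_mul, Units.val_pow_eq_pow_val, Units.val_mk0]; exact h1
          · rw [Units.val_inv_eq_inv_val, Units.val_mul, Units.val_pow_eq_pow_val,
              Units.val_mk0]; exact h2
        have h4 := mul_mem (Subgroup.mem_sup_left h3)
          (inv_mem (Subgroup.mem_sup_right (S := O.unitGroup) (T := pwG F p)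
            (show Units.mk0 f hf ^ p ∈ pwG F p from ⟨_, rfl⟩)))
        rwa [mul_inv_cancel_right] at h4) c hc
      rw [e]
      exact mul_mem (Subgroup.mem_sup_left (pow_mem (Subgroup.mem_zpowers a) j))
        (Subgroup.mem_sup_right ⟨d, rfl⟩)
    · rw [Subgroup.zpowers_le]
      exact hself a hap
  refine ⟨O, hPw, ?_, ?_, hram⟩
  · intro e
    rw [e] at hUb
    exact hbt (eq_top_iff.2 hUb)
  · intro u hu huU
    refine le_antisymm ?_ ?_
    · intro c hc
      by_contra hcU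
      obtain ⟨ζ, hζ'⟩ := id hζ
      have hcp : c ∉ pwG F p := fun h => hcU (Subgroup.mem_sup_right h)
      have h1 : u ∈ nmG p c := hsy p hp hp2 F ζ hζ' u c hu hcp hc
      rw [hram c hcU] at h1
      obtain ⟨x, hx, y, hy, hxy⟩ := Subgroup.mem_sup.1 h1
      obtain ⟨n, rfl⟩ := Subgroup.mem_zpowers_iff.1 hx
      have h3 : c ^ n ∈ O.unitGroup ⊔ pwG F p := by
        have h4 : c ^ n = u * y⁻¹ := by rw [← hxy, mul_inv_cancel_right]
        rw [h4]
        exact mul_mem huU (inv_mem (Subgroup.mem_sup_right hy))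
      by_cases hd : (p : ℤ) ∣ n
      · obtain ⟨m, rfl⟩ := hd
        apply hu
        rw [← hxy]
        refine mul_mem ⟨c ^ m, ?_⟩ hy
        show (c ^ m) ^ p = _
        rw [← zpow_natCast, ← zpow_mul, mul_comm]
      · apply hcU
        refine mem_of_pow hp le_sup_right (j := n.natAbs)
          (fun hd' => hd (Int.natCast_dvd.2 hd')) ?_
        rcases Int.natAbs_eq n with e | e
        · rw [e, zpow_natCast] at h3; exact h3
        · rw [e, zpow_neg, zpow_natCast] at h3; exact inv_mem_iff.1 h3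
    · intro v hv
      exact hblk u v hu (hUb huU) (hUb hv)

end Pool.Agent.R675.TP
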