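import Mathlib
import Pool.Agent.R675.TP.Cls

set_option autoImplicit false

/-! Valuation rings from partitions of the group of `p`-th power classes. -/

namespace Pool.Agent.R675.TP

open Pool.Agent.Y920.EP
open Pool.Agent.Y920.ETC (PCD Compat)

/-- a partition of `G/T` into proper subgroups: subgroups `K ≠ G` containing `T` which cover `G`
and meet pairwise in `T` -/
structure IsPart {G : Type} [Group G] (T : Subgroup G) (P : Set (Subgroup G)) : Prop where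
  le : ∀ K ∈ P, T ≤ K
  ne_top : ∀ K ∈ P, K ≠ ⊤
  cover : ∀ x : G, ∃ K ∈ P, x ∈ K
  inf : ∀ K ∈ P, ∀ K' ∈ P, K ≠ K' → K ⊓ K' = T

section

variable {G : Type} [Group G] {T : Subgroup G} {P : Set (Subgroup G)}

lemma IsPart.eq_of (h : IsPart T P) {K K' : Subgroup G} (hK : K ∈ P) (hK' : K' ∈ P) {x : G}
    (hx : x ∉ T) (h1 : x ∈ K) (h2 : x ∈ K') : K = K' := by
  by_contra hne
  apply hx
  rw [← h.inf K hK K' hK' hne]
  exact ⟨h1, h2⟩

end

section quot

variable {F : Type} [Field F] {A : Type} [CommGroup A] {φ : Fˣ →* A}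
  (hφ : Function.Surjective φ) {P : Set (Subgroup Fˣ)} (hP : IsPart φ.ker P)

open Classical in
/-- the blocks in the class group -/
noncomputable def NnP (a : A) : Subgroup A :=
  if a = 1 then ⊤ else ((hP.cover (Function.surjInv hφ a)).choose).map φ

lemma mem_NnP {x y : Fˣ} (hx : φ x ≠ 1) :
    φ y ∈ NnP hφ hP (φ x) ↔ ∃ K ∈ P, x ∈ K ∧ y ∈ K := by
  obtain ⟨x', hx'⟩ : ∃ x', x' = Function.surjInv hφ (φ x) := ⟨_, rfl⟩
  have e : φ x' = φ x := by rw [hx', Function.surjInv_eq hφ]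
  obtain ⟨K₀, hK₀⟩ : ∃ K₀, K₀ = (hP.cover (Function.surjInv hφ (φ x))).choose := ⟨_, rfl⟩
  have hK₀P : K₀ ∈ P := by rw [hK₀]; exact (hP.cover (Function.surjInv hφ (φ x))).choose_spec.1
  have hK₀x : x' ∈ K₀ := by
    rw [hK₀, hx']; exact (hP.cover (Function.surjInv hφ (φ x))).choose_spec.2
  have hx'1 : x' ∉ φ.ker := by rw [MonoidHom.mem_ker, e]; exact hx
  have hsat : ∀ K ∈ P, ∀ u v : Fˣ, φ u = φ v → u ∈ K → v ∈ K := by
    intro K hK u v huv hu
    have h1 : v / u ∈ K := hP.le K hK (by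
      rw [MonoidHom.mem_ker, map_div, huv, div_self'])
    have h2 := mul_mem h1 hu
    rwa [div_mul_cancel] at h2
  rw [NnP, if_neg hx, ← hK₀, Subgroup.mem_map]
  constructor
  · rintro ⟨z, hz, hzy⟩
    exact ⟨K₀, hK₀P, hsat K₀ hK₀P _ _ e hK₀x, hsat K₀ hK₀P _ _ hzy hz⟩
  · rintro ⟨K, hK, h1, h2⟩
    have h3 := hsat K hK _ _ e.symm h1
    rw [← hP.eq_of hK hK₀P hx'1 h3 hK₀x]
    exact ⟨y, h2, rfl⟩

lemma tsys_of_part (hn : φ (-1) = 1)
    (hsum : ∀ x v : Fˣ, φ x ≠ 1 → (v : F) = 1 + x → ∀ K ∈ P, x ∈ K → v ∈ K) :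
    TSys φ (NnP hφ hP) := by
  refine ⟨hn, ⟨?_, ?_, ?_⟩, ?_⟩
  · intro a b hab
    obtain ⟨x, rfl⟩ := hφ a
    obtain ⟨y, rfl⟩ := hφ b
    by_cases hy : φ y = 1
    · rw [NnP, if_pos hy]; trivial
    by_cases hx : φ x = 1
    · rw [hx]; exact one_mem _
    rw [mem_NnP hφ hP hx] at hab
    rw [mem_NnP hφ hP hy]
    obtain ⟨K, hK, h1, h2⟩ := hab
    exact ⟨K, hK, h2, h1⟩
  · intro a
    obtain ⟨x, rfl⟩ := hφ a
    by_cases hx : φ x = 1
    · rw [hx]; exact one_mem _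
    rw [mem_NnP hφ hP hx]
    obtain ⟨K, hK, h1⟩ := hP.cover x
    exact ⟨K, hK, h1, h1⟩
  · intro a b hb hab c hc
    obtain ⟨x, rfl⟩ := hφ a
    obtain ⟨y, rfl⟩ := hφ b
    obtain ⟨z, rfl⟩ := hφ c
    by_cases hx : φ x = 1
    · rw [NnP, if_pos hx]; trivial
    rw [mem_NnP hφ hP hx] at hab ⊢
    rw [mem_NnP hφ hP hb] at hc
    obtain ⟨K, hK, h1, h2⟩ := hab
    obtain ⟨K', hK', h3, h4⟩ := hc
    have e := hP.eq_of hK hK' (x := y) (by rw [MonoidHom.mem_ker]; exact hb) h2 h3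
    subst e
    exact ⟨K, hK, h1, h4⟩
  · intro u v huv
    by_cases hu : φ u = 1
    · rw [NnP, if_pos hu]; trivial
    rw [mem_NnP hφ hP hu]
    obtain ⟨K, hK, h1⟩ := hP.cover u
    exact ⟨K, hK, h1, hsum u v hu huv K hK h1⟩

end quot

/-- the valuation ring of a system of blocks -/
theorem val_of_tsys (hpcd : S_PCD) (hwb : S_WB') (hco : S_COARSE')
    (p : ℕ) (hp : p.Prime) (hp2 : p ≠ 2) (F : Type) [Field F] (hpF : (p : F) ≠ 0)
    {A : Type} [CommGroup A] {φ : Fˣ →* A} (hφ : Function.Surjective φ)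
    (hk : φ.ker = pwG F p) {Nn : A → Subgroup A} (hT : TSys φ Nn)
    (hfin : ∀ u : Fˣ, φ u ≠ 1 → (Nn (φ u) : Set A).Finite) (hne : ∃ a : Fˣ, φ a ≠ 1) :
    ∃ (b : Fˣ) (O : ValuationSubring F), φ b ≠ 1 ∧ O.unitGroup ≤ (Nn (φ b)).comap φ ∧
      Pw p O := by
  have hexp : ∀ a : A, a ^ p = 1 := exp_p hφ hk
  have hodd : Odd p := hp.odd_of_ne_two hp2
  have hodd' : ∀ a : A, a * a = 1 → a = 1 := by
    intro a ha
    obtain ⟨m, hm⟩ := hodd
    have h1 := hexp a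
    rw [hm, pow_succ, pow_mul, pow_two, ha, one_pow, one_mul] at h1
    exact h1
  -- the block
  obtain ⟨b, hb1, hbad⟩ : ∃ b : Fˣ, φ b ≠ 1 ∧ ∀ y : Fˣ, Bd φ y → φ y ∈ Nn (φ b) := by
    by_cases h1 : ∃ y, Bd φ y
    · obtain ⟨y, hy⟩ := h1
      refine ⟨y, hy.1, fun z hz => ?_⟩
      by_contra hc
      exact no_two hT hy hz hc hp.pos hexp hodd' (hfin y hy.1)
    · obtain ⟨a, ha⟩ := hne
      exact ⟨a, ha, fun y hy => absurd ⟨y, hy⟩ h1⟩
  obtain ⟨K, hKdef⟩ : ∃ K : Subgroup A, K = Nn (φ b) := ⟨_, rfl⟩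
  have hNR : NR φ ⊆ (K : Set A) := by
    rintro a ⟨ha1, r, s, hr, hrs, hs1, hs2⟩
    have h1 : φ (-r) = a := by rw [phi_neg hT.neg, hr]
    have h2 : Bd φ (-r) := by
      rw [Bd.iff (s := s) (by rw [Units.val_neg]; linear_combination hrs), h1]
      exact ⟨ha1, hs1, hs2⟩
    have h3 := hbad _ h2
    rw [h1, ← hKdef] at h3
    exact h3
  have hRP : RP φ.ker (K.comap φ) := rp_of hT.neg K hNR
  have hsq : ∀ x : Fˣ, x * x ∈ K.comap φ → x ∈ K.comap φ := by
    intro x hx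
    rw [Subgroup.mem_comap] at hx ⊢
    obtain ⟨m, hm⟩ := hodd
    have : φ x = φ (x * x) ^ (m + 1) := by
      rw [map_mul, ← pow_two, ← pow_mul, show 2 * (m + 1) = p + 1 by omega, pow_succ, hexp,
        one_mul]
    rw [this]
    exact pow_mem hx _
  have hP := hpcd F φ.ker (K.comap φ) hRP hsq
  obtain ⟨O, hO⟩ := hwb F φ.ker (K.comap φ) hRP hP
  obtain ⟨O', -, hpO, hO'⟩ := hco F p hp hpF φ.ker (K.comap φ)
    (fun x => by rw [MonoidHom.mem_ker, phi_one hk]) hRP.le O hO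
  refine ⟨b, O', hb1, ?_, ⟨hpO, hpF, ?_⟩⟩
  · intro u hu
    rw [← hKdef]
    refine hO'.units u ?_ ?_
    · rw [← ValuationSubring.valuation_le_one_iff]
      exact le_of_eq hu
    · rw [← ValuationSubring.valuation_le_one_iff]
      exact le_of_eq (inv_mem hu : u⁻¹ ∈ O'.unitGroup)
  · intro x hx hx'
    obtain ⟨t, ht, e⟩ := hO'.one x hx hx'
    rw [MonoidHom.mem_ker, phi_one hk] at ht
    obtain ⟨b, rfl⟩ := ht
    exact ⟨b, by rw [← e, Units.val_pow_eq_pow_val]⟩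

/-- from partitions to valuation rings -/
theorem val_of_part (hpcd : S_PCD) (hwb : S_WB') (hco : S_COARSE')
    (p : ℕ) (hp : p.Prime) (hp2 : p ≠ 2) (F : Type) [Field F] (hpF : (p : F) ≠ 0)
    {P : Set (Subgroup Fˣ)} (hP : IsPart (pwG F p) P)
    (hfin : ∀ K ∈ P, (pwG F p).relIndex K ≠ 0)
    (hsum : ∀ x v : Fˣ, x ∉ pwG F p → (v : F) = 1 + x → ∀ K ∈ P, x ∈ K → v ∈ K) :
    ∃ K ∈ P, ∃ O : ValuationSubring F, O.unitGroup ≤ K ∧ Pw p O := by
  obtain ⟨A, _, φ, hφ, hk⟩ := exists_quot F (pwG F p)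
  rw [← hk] at hP
  have hmem : ∀ u : Fˣ, u ∉ pwG F p ↔ φ u ≠ 1 := by
    intro u
    rw [← hk, MonoidHom.mem_ker]
  have hT := tsys_of_part hφ hP (phi_neg_one hk hp hp2)
    (fun x v hx hv K hK hxK => hsum x v ((hmem x).2 hx) hv K hK hxK)
  have hne : ∃ a : Fˣ, φ a ≠ 1 := by
    by_contra hc
    push Not at hc
    obtain ⟨K, hK, -⟩ := hP.cover 1
    apply hP.ne_top K hK
    rw [eq_top_iff]
    intro x _
    exact hP.le K hK (MonoidHom.mem_ker.2 (hc x))
  have hfin' : ∀ u : Fˣ, φ u ≠ 1 → (NnP hφ hP (φ u) : Set A).Finite := by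
    intro u hu
    obtain ⟨K, hK, huK⟩ := hP.cover u
    have e : NnP hφ hP (φ u) = K.map φ := by
      ext b
      obtain ⟨v, rfl⟩ := hφ b
      rw [mem_NnP hφ hP hu, Subgroup.mem_map]
      constructor
      · rintro ⟨K', hK', h2, h3⟩
        have e := hP.eq_of hK hK' (x := u) (by rw [MonoidHom.mem_ker]; exact hu) huK h2
        exact ⟨v, by rw [e]; exact h3, rfl⟩
      · rintro ⟨w, hw, hwv⟩
        refine ⟨K, hK, huK, ?_⟩
        have h1 : v / w ∈ K := hP.le K hK (by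
          rw [MonoidHom.mem_ker, map_div, hwv, div_self'])
        have h2 := mul_mem h1 hw
        rwa [div_mul_cancel] at h2
    have h1 := hfin K hK
    rw [← hk, Subgroup.relIndex_ker] at h1
    have hf : Finite (K.map φ) := Nat.finite_of_card_ne_zero h1
    rw [e]
    exact Set.toFinite _
  obtain ⟨b, O, hb, hOb, hPw⟩ := val_of_tsys hpcd hwb hco p hp hp2 F hpF hφ hk hT hfin' hne
  obtain ⟨K, hK, hbK⟩ := hP.cover b
  refine ⟨K, hK, O, ?_, hPw⟩
  intro u hu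
  have h1 := hOb hu
  rw [Subgroup.mem_comap, mem_NnP hφ hP hb] at h1
  obtain ⟨K', hK', h2, h3⟩ := h1
  have e := hP.eq_of hK hK' (x := b) (by rw [MonoidHom.mem_ker]; exact hb) hbK h2
  rw [e]
  exact h3

/-- norm groups for a valuation ring -/
theorem norms_of_val (hng : S_NG) (hsy : S_SYMM) (p : ℕ) (hp : p.Prime) (hp2 : p ≠ 2)
    (F : Type) [Field F] (hζ : ∃ ζ : F, IsPrimitiveRoot ζ p) (O : ValuationSubring F)
    (hPw : Pw p O) :
    (∀ a : Fˣ, a ∉ O.unitGroup ⊔ pwG F p → nmG p a = Subgroup.zpowers a ⊔ pwG F p) ∧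
    ∀ u : Fˣ, u ∉ pwG F p → u ∈ O.unitGroup ⊔ pwG F p → nmG p u ≤ O.unitGroup ⊔ pwG F p := by
  have hpow : ∀ a : Fˣ, pwG F p ≤ nmG p a := by
    rintro a _ ⟨c, rfl⟩
    exact (hng p hp hp2 F).1 a c
  have hself : ∀ a : Fˣ, a ∉ pwG F p → a ∈ nmG p a := by
    intro a ha
    obtain ⟨A, _, φ, hφ, hk⟩ := exists_quot F (pwG F p)
    have h1 := nn_self hφ hk hng hsy hp hp2 hζ (φ a)
    exact (mem_Nn hφ hk hng hp hp2 (fun e => ha (by rw [← hk, MonoidHom.mem_ker]; exact e))).1 h1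
  have hram : ∀ a : Fˣ, a ∉ O.unitGroup ⊔ pwG F p →
      nmG p a = Subgroup.zpowers a ⊔ pwG F p := by
    intro a ha
    have hap : a ∉ pwG F p := fun h => ha (Subgroup.mem_sup_right h)
    refine le_antisymm ?_ (sup_le ?_ (hpow a))
    · intro c hc
      obtain ⟨j, d, e⟩ := nmG_ram p hp hp2 F hζ O hPw a (by
        rintro f hf ⟨h1, h2⟩
        apply ha
        have h3 : a * Units.mk0 f hf ^ p ∈ O.unitGroup := by
          refine mem_unitGroup_of ?_ ?_
          · rw [Units.val_mul, Units.val_pow_eq_pow_val, Units.val_mk0]; exact h1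
          · rw [Units.val_inv_eq_inv_val, Units.val_mul, Units.val_pow_eq_pow_val,
              Units.val_mk0]; exact h2
        have h4 := mul_mem (Subgroup.mem_sup_left h3)
          (inv_mem (Subgroup.mem_sup_right (S := O.unitGroup) (T := pwG F p)
            (show Units.mk0 f hf ^ p ∈ pwG F p from ⟨_, rfl⟩)))
        rwa [mul_inv_cancel_right] at h4) c hc
      rw [e]
      exact mul_mem (Subgroup.mem_sup_left (pow_mem (Subgroup.mem_zpowers a) j))
        (Subgroup.mem_sup_right ⟨d, rfl⟩)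
    · rw [Subgroup.zpowers_le]
      exact hself a hap
  refine ⟨hram, ?_⟩
  intro u hu huU c hc
  by_contra hcU
  obtain ⟨ζ, hζ'⟩ := id hζ
  have hcp : c ∉ pwG F p := fun h => hcU (Subgroup.mem_sup_right h)
  have h1 : u ∈ nmG p c := hsy p hp hp2 F ζ hζ' u c hu hcp hc
  rw [hram c hcU] at h1
  obtain ⟨x, hx, y, hy, hxy⟩ := Subgroup.mem_sup.1 h1
  obtain ⟨n, rfl⟩ := Subgroup.mem_zpowers_iff.1 hx
  have h3 : c ^ n ∈ O.unitGroup ⊔ pwG F p := by
    have h4 : c ^ n = u * y⁻¹ := by rw [← hxy, mul_inv_cancel_right]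
    rw [h4]
    exact mul_mem huU (inv_mem (Subgroup.mem_sup_right hy))
  by_cases hd : (p : ℤ) ∣ n
  · obtain ⟨m, rfl⟩ := hd
    apply hu
    rw [← hxy]
    refine mul_mem ⟨c ^ m, ?_⟩ hy
    show (c ^ m) ^ p = _
    rw [← zpow_natCast, ← zpow_mul, mul_comm]
  · apply hcU
    refine mem_of_pow hp le_sup_right (j := n.natAbs)
      (fun hd' => hd (Int.natCast_dvd.2 hd')) ?_
    rcases Int.natAbs_eq n with e | e
    · rw [e, zpow_natCast] at h3; exact h3
    · rw [e, zpow_neg, zpow_natCast] at h3; exact inv_mem_iff.1 h3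

/-- an element of `⟨a⟩ T` outside `T` generates the same group -/
lemma zpowers_eq {F : Type} [Field F] {p : ℕ} (hp : p.Prime) {a g : Fˣ}
    (hg : g ∉ pwG F p) (h : g ∈ Subgroup.zpowers a ⊔ pwG F p) :
    a ∈ Subgroup.zpowers g ⊔ pwG F p := by
  obtain ⟨x, hx, y, hy, hxy⟩ := Subgroup.mem_sup.1 h
  obtain ⟨n, rfl⟩ := Subgroup.mem_zpowers_iff.1 hx
  have h3 : a ^ n ∈ Subgroup.zpowers g ⊔ pwG F p := by
    have h4 : a ^ n = g * y⁻¹ := by rw [← hxy, mul_inv_cancel_right]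
    rw [h4]
    exact mul_mem (Subgroup.mem_sup_left (Subgroup.mem_zpowers g))
      (inv_mem (Subgroup.mem_sup_right hy))
  by_cases hd : (p : ℤ) ∣ n
  · obtain ⟨m, rfl⟩ := hd
    exfalso
    apply hg
    rw [← hxy]
    refine mul_mem ⟨a ^ m, ?_⟩ hy
    show (a ^ m) ^ p = _
    rw [← zpow_natCast, ← zpow_mul, mul_comm]
  · refine mem_of_pow hp le_sup_right (j := n.natAbs)
      (fun hd' => hd (Int.natCast_dvd.2 hd')) ?_
    rcases Int.natAbs_eq n with e | e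
    · rw [e, zpow_natCast] at h3; exact h3
    · rw [e, zpow_neg, zpow_natCast] at h3; exact inv_mem_iff.1 h3

/-- the partition of a valuation ring -/
theorem part_of_val (hng : S_NG) (hsy : S_SYMM) (p : ℕ) (hp : p.Prime) (hp2 : p ≠ 2)
    (F : Type) [Field F] (hζ : ∃ ζ : F, IsPrimitiveRoot ζ p) (hidx : (pwG F p).index ≠ p)
    (O : ValuationSubring F) (hPw : Pw p O) (hne : O.unitGroup ⊔ pwG F p ≠ ⊤) :
    ∃ P : Set (Subgroup Fˣ), IsPart (pwG F p) P ∧
      ∀ a : Fˣ, a ∉ pwG F p → ∀ K ∈ P, a ∈ K → nmG p a ≤ K := by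
  obtain ⟨h1, h2⟩ := norms_of_val hng hsy p hp hp2 F hζ O hPw
  obtain ⟨U, hU⟩ : ∃ U : Subgroup Fˣ, U = O.unitGroup ⊔ pwG F p := ⟨_, rfl⟩
  have hTU : pwG F p ≤ U := hU ▸ le_sup_right
  rw [← hU] at h1 h2 hne
  refine ⟨{K | K = U ∨ ∃ a : Fˣ, a ∉ U ∧ K = Subgroup.zpowers a ⊔ pwG F p},
    ⟨?_, ?_, ?_, ?_⟩, ?_⟩
  · rintro K (rfl | ⟨a, -, rfl⟩)
    · exact hTU
    · exact le_sup_right
  · rintro K (rfl | ⟨a, ha, rfl⟩)
    · exact hne
    · intro e
      apply hidx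
      have hap : a ∉ pwG F p := fun h => ha (hTU h)
      -- the quotient is cyclic of order `p`
      obtain ⟨A, _, φ, hφ, hk⟩ := exists_quot F (pwG F p)
      have hgen : Subgroup.zpowers (φ a) = ⊤ := by
        rw [eq_top_iff]
        intro x _
        obtain ⟨y, rfl⟩ := hφ x
        have hy : y ∈ Subgroup.zpowers a ⊔ pwG F p := by rw [e]; trivial
        obtain ⟨z, hz, t, ht, hzt⟩ := Subgroup.mem_sup.1 hy
        obtain ⟨n, rfl⟩ := Subgroup.mem_zpowers_iff.1 hz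
        refine Subgroup.mem_zpowers_iff.2 ⟨n, ?_⟩
        rw [← hk, MonoidHom.mem_ker] at ht
        rw [← hzt, map_mul, map_zpow, ht, mul_one]
      have h3 : orderOf (φ a) = p := by
        have := Fact.mk hp
        refine orderOf_eq_prime (exp_p hφ hk _) ?_
        intro h4
        rw [← MonoidHom.mem_ker, hk] at h4
        exact hap h4
      have hcard : (pwG F p).index = p := by
        have h6 : Nat.card (Subgroup.zpowers (φ a)) = p := by
          rw [Nat.card_zpowers, h3]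
        rw [hgen, Subgroup.card_top] at h6
        rw [← hk, Subgroup.index_ker, MonoidHom.range_eq_top.2 hφ, Subgroup.card_top]
        exact h6
      exact hcard
  · intro x
    by_cases hx : x ∈ U
    · exact ⟨U, Or.inl rfl, hx⟩
    · exact ⟨_, Or.inr ⟨x, hx, rfl⟩, Subgroup.mem_sup_left (Subgroup.mem_zpowers x)⟩
  · have hUa : ∀ a : Fˣ, a ∉ U → U ⊓ (Subgroup.zpowers a ⊔ pwG F p) = pwG F p := by
      intro a ha
      refine le_antisymm ?_ (le_inf hTU le_sup_right)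
      rintro x ⟨hx1, hx2⟩
      by_contra hx
      have h3 := zpowers_eq hp hx hx2
      have h4 : Subgroup.zpowers x ⊔ pwG F p ≤ U :=
        sup_le ((Subgroup.zpowers_le).2 hx1) hTU
      exact ha (h4 h3)
    rintro K (rfl | ⟨a, ha, rfl⟩) K' (rfl | ⟨a', ha', rfl⟩) hne'
    · exact absurd rfl hne'
    · exact hUa a' ha'
    · rw [inf_comm]; exact hUa a ha
    · refine le_antisymm ?_ (le_inf le_sup_right le_sup_right)
      rintro x ⟨hx1, hx2⟩
      by_contra hx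
      apply hne'
      have h3 : ∀ a : Fˣ, x ∈ Subgroup.zpowers a ⊔ pwG F p →
          Subgroup.zpowers a ⊔ pwG F p = Subgroup.zpowers x ⊔ pwG F p := by
        intro a hxa
        refine le_antisymm (sup_le ((Subgroup.zpowers_le).2 (zpowers_eq hp hx hxa))
          le_sup_right) (sup_le ((Subgroup.zpowers_le).2 hxa) le_sup_right)
      rw [h3 a hx1, h3 a' hx2]
  · rintro a ha K (rfl | ⟨c, hc, rfl⟩) haK
    · exact h2 a ha haK
    · by_cases haU : a ∈ U
      · exfalso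
        have h3 := zpowers_eq hp ha haK
        have h4 : Subgroup.zpowers a ⊔ pwG F p ≤ U :=
          sup_le ((Subgroup.zpowers_le).2 haU) hTU
        exact hc (h4 h3)
      · rw [h1 a haU]
        exact sup_le ((Subgroup.zpowers_le).2 haK) le_sup_right

end Pool.Agent.R675.TP
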